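import Mathlib
import Pool.Agent.H97.SCV

set_option autoImplicit false

namespace Pool.Agent.Results.MP_563419_an.NoExtension

open MvPolynomial Complex Set Filter Topology Metric

/-- the ring of regular functions on `ℂⁿ` -/
abbrev O (n : ℕ) := MvPolynomial (Fin n) ℂ

/-- locally nilpotent derivation -/
def IsLND {n : ℕ} (Θ : Derivation ℂ (O n) (O n)) : Prop :=
  ∀ f : O n, ∃ k : ℕ, 1 ≤ k ∧ (⇑Θ)^[k] f = 0

/-- the algebraic overshear vector fields `f Θ`, `Θ` an LND and `Θ² f = 0` -/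
def overshears (n : ℕ) : Set (Derivation ℂ (O n) (O n)) :=
  {D | ∃ (Θ : Derivation ℂ (O n) (O n)) (f : O n), IsLND Θ ∧ Θ (Θ f) = 0 ∧ D = f • Θ}

lemma lnd (i : Fin 2) : IsLND (pderiv i : Derivation ℂ (O 2) (O 2)) := fun f => by
  have h : ∀ k (f : O 2), f.degreeOf i < k → (⇑(pderiv i : Derivation ℂ (O 2) (O 2)))^[k] f = 0 := by
    intro k
    induction k with
    | zero => intro f hf; omega
    | succ k ih =>
      intro f hf
      rw [Function.iterate_succ_apply]
      by_cases h0 : pderiv i f = 0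
      · rw [h0]; exact Function.iterate_fixed (map_zero _) k
      refine ih _ ?_
      have h1 : ∀ m ∈ (pderiv i f).support, m i < k := fun m hm => by
        rw [mem_support_iff, coeff_pderiv] at hm
        have := monomial_le_degreeOf i (mem_support_iff.2 (left_ne_zero_of_mul hm))
        simp at this; omega
      obtain ⟨m, hm⟩ := support_nonempty.2 h0
      exact (degreeOf_lt_iff (lt_of_le_of_lt (Nat.zero_le _) (h1 m hm))).2 h1
  exact ⟨_, Nat.succ_pos _, h _ f (Nat.lt_succ_self _)⟩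

lemma span_aux (i j : Fin 2) (hij : j ≠ i) (hall : ∀ k, k = i ∨ k = j) (a b : ℕ) :
    ((X i ^ a * X j ^ b : O 2) • pderiv i : Derivation ℂ (O 2) (O 2)) ∈
      LieSubalgebra.lieSpan ℂ _ (overshears 2) := by
  have hji := hij.symm
  have m1 : ∀ i j : Fin 2, j ≠ i → ∀ c, ((X j ^ c : O 2) • pderiv i : Derivation ℂ (O 2) (O 2)) ∈
      LieSubalgebra.lieSpan ℂ _ (overshears 2) := fun i j h c =>
    LieSubalgebra.subset_lieSpan ⟨_, _, lnd i, by simp [pderiv_X_of_ne h], rfl⟩
  have m2 : ∀ i j : Fin 2, j ≠ i → ∀ c,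
      ((X i * X j ^ c : O 2) • pderiv i : Derivation ℂ (O 2) (O 2)) ∈
      LieSubalgebra.lieSpan ℂ _ (overshears 2) := fun i j h c =>
    LieSubalgebra.subset_lieSpan ⟨_, _, lnd i, by simp [pderiv_X_of_ne h], rfl⟩
  rcases a with _ | a
  · simpa using m1 i j hij b
  have h := sub_mem (LieSubalgebra.lie_mem _ (m1 j i hji a) (m2 i j hij (b + 1)))
    (LieSubalgebra.lie_mem _ (m2 j i hji a) (m2 i j hij b))
  convert h using 1
  refine derivation_ext fun k => ?_
  rcases hall k with rfl | rfl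
  · rcases b with _ | b <;>
    simp [Derivation.commutator_apply, pderiv_X_of_ne hij, pderiv_X_of_ne hji] <;> ring
  · rcases a with _ | a <;>
    simp [Derivation.commutator_apply, pderiv_X_of_ne hij, pderiv_X_of_ne hji] <;> ring

lemma density : LieSubalgebra.lieSpan ℂ _ (overshears 2) = ⊤ := by
  have h : ∀ (i : Fin 2) (f : O 2), (f • pderiv i : Derivation ℂ (O 2) (O 2)) ∈
      LieSubalgebra.lieSpan ℂ _ (overshears 2) := fun i f => by
    induction f using MvPolynomial.induction_on' with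
    | add p q hp hq => rw [add_smul]; exact add_mem hp hq
    | monomial m c =>
      have e : (monomial m c : O 2) = c • (X 0 ^ m 0 * X 1 ^ m 1) := by
        rw [monomial_eq, Finsupp.prod_fintype _ _ (by simp), Fin.prod_univ_two, smul_eq_C_mul]
      rw [e, smul_assoc]
      refine LieSubalgebra.smul_mem _ _ ?_
      fin_cases i
      · exact span_aux 0 1 (by decide) (by decide) _ _
      · rw [mul_comm]; exact span_aux 1 0 (by decide) (by decide) _ _
  refine eq_top_iff.2 fun D _ => ?_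
  have e : D = D (X 0) • pderiv 0 + D (X 1) • pderiv 1 :=
    derivation_ext fun k => by fin_cases k <;> simp
  rw [e]
  exact add_mem (h _ _) (h _ _)

lemma nolog {H : ℂ → ℂ} (hc : Continuous H) (h0 : ∀ w, H w ≠ 0)
    (h1 : ∀ t : ℂ, ‖t‖ = 1 → ‖H t / t - 1‖ < 1) : False := by
  obtain ⟨L, ⟨-, hL⟩, -⟩ := isCoveringMapOn_exp.existsUnique_continuousMap_lifts
    (⟨H, hc⟩ : C(ℂ, ℂ)) (exp_log (h0 0)) (fun w => h0 w)
  have hL' : ∀ w, exp (L w) = H w := fun w => congrFun hL w
  have hn : ∀ θ : ℝ, ‖exp (θ * I)‖ = 1 := norm_exp_ofReal_mul_I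
  have hs : ∀ θ : ℝ, H (exp (θ * I)) / exp (θ * I) ∈ slitPlane := fun θ => by
    simpa using mem_slitPlane_of_norm_lt_one (h1 _ (hn θ))
  have hk : Continuous fun θ : ℝ =>
      L (exp (θ * I)) - θ * I - log (H (exp (θ * I)) / exp (θ * I)) := by
    refine Continuous.sub (by fun_prop) (Continuous.clog ?_ hs)
    exact (hc.comp (by fun_prop)).div (by fun_prop) fun θ => exp_ne_zero _
  have h2 := isCoveringMap_exp.const_of_comp hk (fun a b => Subtype.ext (by
    have e : ∀ θ : ℝ, exp (L (exp (θ * I)) - θ * I - log (H (exp (θ * I)) / exp (θ * I))) = 1 :=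
      fun θ => by
        rw [exp_sub, exp_sub, hL', exp_log (slitPlane_ne_zero (hs θ)),
          div_self (slitPlane_ne_zero (hs θ))]
    simp only [e])) 0 (2 * Real.pi)
  simp at h2
  exact two_pi_I_ne_zero (by linear_combination h2)

/-- `ℂ²` has the algebraic overshear density property, and there are closed subvarieties
`A, B ⊂ ℂ²` and an algebraic isomorphism `φ : A → B` (polynomial, with polynomial inverse `ψ`) that
does not extend to a holomorphic automorphism of `ℂ²`. -/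
theorem result : LieSubalgebra.lieSpan ℂ _ (overshears 2) = ⊤ ∧
    ∃ (p q : O 2) (φ ψ : Fin 2 → O 2),
      let A : Set (Fin 2 → ℂ) := {z | eval z p = 0}
      let B : Set (Fin 2 → ℂ) := {z | eval z q = 0}
      let φ' : (Fin 2 → ℂ) → Fin 2 → ℂ := fun z i => eval z (φ i)
      let ψ' : (Fin 2 → ℂ) → Fin 2 → ℂ := fun z i => eval z (ψ i)
      MapsTo φ' A B ∧ MapsTo ψ' B A ∧ InvOn ψ' φ' A B ∧
      ¬ ∃ Φ Ψ : (Fin 2 → ℂ) → Fin 2 → ℂ, Differentiable ℂ Φ ∧ Differentiable ℂ Ψ ∧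
        Function.LeftInverse Ψ Φ ∧ Function.RightInverse Ψ Φ ∧ EqOn Φ φ' A := by
  refine ⟨density, X 0 * X 1 - 1, X 0 ^ 2 * X 1 - 1, ![X 0, X 1 ^ 2], ![X 0, X 0 * X 1], ?_⟩
  intro A B φ' ψ'
  have hA : ∀ z, z ∈ A ↔ z 0 * z 1 = 1 := fun z => by simp [A, sub_eq_zero]
  have hB : ∀ z, z ∈ B ↔ z 0 ^ 2 * z 1 = 1 := fun z => by simp [B, sub_eq_zero]
  have hφ : ∀ z, φ' z = ![z 0, z 1 ^ 2] := fun z => by ext i; fin_cases i <;> simp [φ']
  have hψ : ∀ z, ψ' z = ![z 0, z 0 * z 1] := fun z => by ext i; fin_cases i <;> simp [ψ']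
  have m2 : MapsTo ψ' B A := fun z hz => by
    rw [hB] at hz; rw [hA, hψ]; simp; linear_combination hz
  have i2 : RightInvOn ψ' φ' B := fun z hz => by
    rw [hB] at hz; rw [hφ, hψ]; ext i; fin_cases i <;> simp
    linear_combination z 1 * hz
  refine ⟨fun z hz => ?_, m2, ⟨fun z hz => ?_, i2⟩, ?_⟩
  · rw [hA] at hz; rw [hB, hφ]; simp; linear_combination (z 0 * z 1 + 1) * hz
  · rw [hA] at hz; rw [hφ, hψ]; ext i; fin_cases i <;> simp
    linear_combination z 1 * hz
  rintro ⟨Φ, Ψ, hΦ, hΨ, hl, -, he⟩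
  have hC : ContDiff ℂ 1 Φ := contDiff_iff_contDiffAt.2 fun z =>
    (Pool.Agent.H97.SCV.analyticAt_of_differentiable hΦ z).contDiffAt
  have hD : Continuous (fderiv ℂ Φ) := hC.continuous_fderiv one_ne_zero
  set J : (Fin 2 → ℂ) → ℂ := fun z => fderiv ℂ Φ z ![1, 0] 0 * fderiv ℂ Φ z ![0, 1] 1 -
    fderiv ℂ Φ z ![1, 0] 1 * fderiv ℂ Φ z ![0, 1] 0 with hJ
  have hlin : ∀ z (a b : ℂ) i, fderiv ℂ Φ z ![a, b] i
      = a * fderiv ℂ Φ z ![1, 0] i + b * fderiv ℂ Φ z ![0, 1] i := fun z a b i => by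
    have : ![a, b] = a • ![1, 0] + b • ![0, 1] := by ext i; fin_cases i <;> simp
    rw [this, map_add, map_smul, map_smul]; rfl
  have hJ0 : ∀ z, J z ≠ 0 := fun z h => by
    have hi : ∀ v, fderiv ℂ Φ z v = 0 → v = 0 := fun v hv => by
      have h1 : fderiv ℂ (Ψ ∘ Φ) z v = v := by rw [show Ψ ∘ Φ = id from hl.comp_eq_id]; simp
      rw [fderiv_comp z (hΨ _) (hΦ _), ContinuousLinearMap.comp_apply, hv, map_zero] at h1
      exact h1.symm
    simp only [hJ] at h
    have h1 := hi ![fderiv ℂ Φ z ![0, 1] 1, -fderiv ℂ Φ z ![1, 0] 1] (by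
      ext i; rw [hlin]; fin_cases i <;> simp
      · linear_combination h
      · ring)
    have h2 := hi ![fderiv ℂ Φ z ![0, 1] 0, -fderiv ℂ Φ z ![1, 0] 0] (by
      ext i; rw [hlin]; fin_cases i <;> simp
      · ring
      · linear_combination -h)
    have h3 := hi ![1, 0] (by
      ext i; fin_cases i
      · simpa using congrFun h2 1
      · simpa using congrFun h1 1)
    simpa using congrFun h3 0
  set Q : (Fin 2 → ℂ) → ℂ := fun z => Φ z 0 ^ 2 * Φ z 1 - 1 with hQ
  have hQ0 : ∀ z, Q z = 0 → z 0 * z 1 = 1 := fun z h => by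
    have h1 : Φ z ∈ B := (hB _).2 (sub_eq_zero.1 h)
    have h2 : ψ' (Φ z) = z := hl.injective ((he (m2 h1)).trans (i2 h1))
    exact (hA _).1 (h2 ▸ m2 h1)
  set D : ℂ → ℝ → ℂ := fun t s => (starRingEnd ℂ) t *
    (2 * Φ ![t, s * (starRingEnd ℂ) t] 0 * fderiv ℂ Φ ![t, s * (starRingEnd ℂ) t] ![0, 1] 0
      * Φ ![t, s * (starRingEnd ℂ) t] 1 + Φ ![t, s * (starRingEnd ℂ) t] 0 ^ 2 *
      fderiv ℂ Φ ![t, s * (starRingEnd ℂ) t] ![0, 1] 1) with hDdef
  have hder : ∀ (t : ℂ) (s : ℝ),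
      HasDerivAt (fun s : ℝ => Q ![t, s * (starRingEnd ℂ) t]) (D t s) s := fun t s => by
    have h1 : HasDerivAt (fun u : ℂ => ![t, u * (starRingEnd ℂ) t]) ![0, (starRingEnd ℂ) t] s := by
      refine hasDerivAt_pi.2 fun i => ?_
      fin_cases i
      · simpa using hasDerivAt_const (s : ℂ) t
      · simpa using (hasDerivAt_id (s : ℂ)).mul_const ((starRingEnd ℂ) t)
    have h2 := hasDerivAt_pi.1 ((hΦ _).hasFDerivAt.comp_hasDerivAt (s : ℂ) h1)
    refine ((((h2 0).pow 2).mul (h2 1)).sub_const 1).comp_ofReal.congr_deriv ?_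
    simp only [hDdef, Function.comp_apply, Pi.pow_apply]
    rw [hlin, hlin _ _ _ 1]; norm_num; ring
  have hcc : Continuous fun x : ℝ × ℂ => (![x.2, x.1 * (starRingEnd ℂ) x.2] : Fin 2 → ℂ) :=
    continuous_pi fun i => by fin_cases i <;> simp <;> fun_prop
  have hDc : Continuous fun x : ℝ × ℂ => D x.2 x.1 := by
    have h1 := hΦ.continuous.comp hcc
    have h2 := (hD.comp hcc).clm_apply (continuous_const (y := ![0, 1]))
    exact (by fun_prop : Continuous fun x : ℝ × ℂ => (starRingEnd ℂ) x.2).mul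
      ((((continuous_const.mul ((continuous_apply 0).comp h1)).mul
        ((continuous_apply 0).comp h2)).mul ((continuous_apply 1).comp h1)).add
        ((((continuous_apply 0).comp h1).pow 2).mul ((continuous_apply 1).comp h2)))
  have hinv : ∀ t : ℂ, ‖t‖ = 1 → (starRingEnd ℂ) t = t⁻¹ := fun t ht => by
    rw [Complex.inv_def, normSq_eq_norm_sq, ht]; simp
  have hΦA : ∀ t : ℂ, t ≠ 0 → Φ ![t, t⁻¹] = ![t, t⁻¹ ^ 2] := fun t ht => by
    rw [he ((hA _).2 (by simp [ht])), hφ]; simp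
  have hD1 : ∀ t : ℂ, ‖t‖ = 1 → D t 1 = t * J ![t, (starRingEnd ℂ) t] := fun t ht => by
    have ht0 : t ≠ 0 := norm_pos_iff.1 (by rw [ht]; exact one_pos)
    have h1 : HasDerivAt (fun u : ℂ => ![u, u⁻¹]) ![1, -(t ^ 2)⁻¹] t := by
      refine hasDerivAt_pi.2 fun i => ?_
      fin_cases i
      · simpa using hasDerivAt_id' t
      · simpa using hasDerivAt_inv ht0
    have h2 := hasDerivAt_pi.1 ((hΦ _).hasFDerivAt.comp_hasDerivAt t h1)
    have h3 : ∀ i, (fun u : ℂ => (Φ ∘ fun u : ℂ => ![u, u⁻¹]) u i) =ᶠ[𝓝 t]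
        fun u => ![u, u⁻¹ ^ 2] i := fun i => by
      filter_upwards [eventually_ne_nhds ht0] with u hu
      rw [Function.comp_apply, hΦA u hu]
    have h4 := ((h2 0).congr_of_eventuallyEq (h3 0).symm).unique (by simpa using hasDerivAt_id' t)
    have h5 := ((h2 1).congr_of_eventuallyEq (h3 1).symm).unique
      (by simpa using (hasDerivAt_inv ht0).fun_pow 2)
    rw [hlin] at h4 h5
    simp only [hDdef, hJ, hinv t ht, ofReal_one, one_mul, hΦA t ht0]
    simp only [one_mul] at h4 h5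
    rw [eq_sub_of_add_eq h4, eq_sub_of_add_eq h5]
    simp; field_simp; ring
  have hD0 : ∀ t : ℂ, ‖t‖ = 1 → 0 < ‖D t 1‖ := fun t ht => by
    rw [hD1 t ht, norm_mul, ht, one_mul]; exact norm_pos_iff.2 (hJ0 _)
  have hev : ∀ᶠ s : ℝ in 𝓝 1, ∀ t ∈ sphere (0 : ℂ) 1, ‖D t s - D t 1‖ < ‖D t 1‖ / 2 := by
    refine (isCompact_sphere 0 1).eventually_forall_of_forall_eventually fun t ht => ?_
    have h1 : Continuous fun x : ℝ × ℂ => D x.2 1 :=
      hDc.comp (by fun_prop : Continuous fun x : ℝ × ℂ => ((1 : ℝ), x.2))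
    refine ContinuousAt.eventually_lt (hDc.sub h1).norm.continuousAt
      (h1.norm.div_const 2).continuousAt ?_
    simpa using hD0 t (by simpa using ht)
  obtain ⟨δ, hδ, hδ'⟩ := Metric.eventually_nhds_iff.1 hev
  set s := max (1 - δ / 2) 0 with hs
  have hs1 : s < 1 := max_lt (by linarith) one_pos
  have hs0 : 0 ≤ s := le_max_right _ _
  have hm : ∀ w : ℂ, 0 < max 1 (‖w‖ ^ 2) := fun w => lt_max_of_lt_left one_pos
  have hs2 : ((s - 1 : ℝ) : ℂ) ≠ 0 := ofReal_ne_zero.2 (by linarith)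
  have hmc : Continuous fun w : ℂ => (s / max 1 (‖w‖ ^ 2), w) :=
    (continuous_const.div (by fun_prop) fun w => (hm w).ne').prodMk continuous_id
  have hJc : Continuous J := by
    have h1 := hD.clm_apply (continuous_const (y := ![1, 0]))
    have h2 := hD.clm_apply (continuous_const (y := ![0, 1]))
    exact (((continuous_apply 0).comp h1).mul ((continuous_apply 1).comp h2)).sub
      (((continuous_apply 1).comp h1).mul ((continuous_apply 0).comp h2))
  have hQc : Continuous Q := by have := hΦ.continuous; simp only [hQ]; fun_prop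
  refine nolog (H := fun w => Q ![w, (s / max 1 (‖w‖ ^ 2) : ℝ) * (starRingEnd ℂ) w] /
      ((s - 1 : ℝ) * J ![w, (starRingEnd ℂ) w])) ?_ (fun w => ?_) (fun t ht => ?_)
  · refine (hQc.comp (hcc.comp hmc)).div (continuous_const.mul (hJc.comp ?_))
      fun w => mul_ne_zero hs2 (hJ0 _)
    exact continuous_pi fun i => by fin_cases i <;> simp <;> fun_prop
  · refine div_ne_zero (fun h => ?_) (mul_ne_zero hs2 (hJ0 _))
    have h1 := hQ0 _ h
    simp only [Matrix.cons_val_zero, Matrix.cons_val_one] at h1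
    rw [mul_left_comm, mul_conj, normSq_eq_norm_sq, ← ofReal_mul, ofReal_eq_one,
      div_mul_eq_mul_div, div_eq_one_iff_eq (hm w).ne'] at h1
    nlinarith [le_max_right 1 (‖w‖ ^ 2), hm w]
  · have ht0 : t ≠ 0 := norm_pos_iff.1 (by rw [ht]; exact one_pos)
    have h1 := norm_image_sub_le_of_norm_deriv_le_segment' (a := s) (b := 1)
      (f := fun u : ℝ => Q ![t, u * (starRingEnd ℂ) t] - u * D t 1) (C := ‖D t 1‖ / 2)
      (f' := fun u => D t u - D t 1) (fun u _ => ((hder t u).sub (by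
        simpa using ofRealCLM.hasDerivAt.mul_const (D t 1))).hasDerivWithinAt)
      (fun u hu => (hδ' (by
        rw [Real.dist_eq, abs_lt]
        constructor <;> linarith [hu.1, hu.2, le_max_left (1 - δ / 2) 0]) t
        (by simpa using ht)).le) 1 ⟨hs1.le, le_rfl⟩
    have h2 : Q ![t, (1 : ℝ) * (starRingEnd ℂ) t] = 0 := by
      simp [hQ, hinv t ht, hΦA t ht0, ht0]
    have h3 := hD0 t ht
    have h4 : D t 1 ≠ 0 := norm_pos_iff.1 h3
    simp only [ht, one_pow, max_self, div_one]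
    rw [h2] at h1
    rw [div_div, mul_assoc, mul_comm _ t, ← hD1 t ht, div_sub_one (mul_ne_zero hs2 h4), norm_div,
      div_lt_one (norm_pos_iff.2 (mul_ne_zero hs2 h4)), norm_mul, Complex.norm_real,
      Real.norm_of_nonpos (by linarith), ← norm_neg]
    refine lt_of_le_of_lt (le_of_eq_of_le (congrArg _ ?_) h1) (by nlinarith)
    push_cast; ring

end Pool.Agent.Results.MP_563419_an.NoExtension
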